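import Mathlib
import Pool.Agent.T9h47.SG.Defs

/-!
# Small symmetric refutations of sentences without infinite models: the circuit and the sequents
-/

set_option autoImplicit false

namespace Pool.Agent.T9h86.SymUp

open Equiv
open Pool.Agent.T9h47.SF Pool.Agent.T9h47.SG
open Classical

variable {R : Type} {ar : R → ℕ}

/-- a finite set of formulas which is closed under subformulas; atoms are put in normal form -/
structure Closed (S : Finset (Σ m, Fml ar m)) : Prop where
  rel : ∀ {m : ℕ} {r : R} {x : Fin (ar r) → Fin m},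
    (⟨m, .rel r x⟩ : Σ m, Fml ar m) ∈ S → (⟨ar r, .rel r id⟩ : Σ m, Fml ar m) ∈ S
  neg : ∀ {m : ℕ} {f : Fml ar m},
    (⟨m, .neg f⟩ : Σ m, Fml ar m) ∈ S → (⟨m, f⟩ : Σ m, Fml ar m) ∈ S
  and1 : ∀ {m : ℕ} {f f' : Fml ar m},
    (⟨m, .and f f'⟩ : Σ m, Fml ar m) ∈ S → (⟨m, f⟩ : Σ m, Fml ar m) ∈ S
  and2 : ∀ {m : ℕ} {f f' : Fml ar m},
    (⟨m, .and f f'⟩ : Σ m, Fml ar m) ∈ S → (⟨m, f'⟩ : Σ m, Fml ar m) ∈ S
  all : ∀ {m : ℕ} {f : Fml ar (m + 1)},
    (⟨m, .all f⟩ : Σ m, Fml ar m) ∈ S → (⟨m + 1, f⟩ : Σ m, Fml ar m) ∈ S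

theorem Closed.union {S T : Finset (Σ m, Fml ar m)} (hS : Closed S) (hT : Closed T) :
    Closed (S ∪ T) where
  rel h := by
    rcases Finset.mem_union.1 h with h | h
    · exact Finset.mem_union_left _ (hS.rel h)
    · exact Finset.mem_union_right _ (hT.rel h)
  neg h := by
    rcases Finset.mem_union.1 h with h | h
    · exact Finset.mem_union_left _ (hS.neg h)
    · exact Finset.mem_union_right _ (hT.neg h)
  and1 h := by
    rcases Finset.mem_union.1 h with h | h
    · exact Finset.mem_union_left _ (hS.and1 h)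
    · exact Finset.mem_union_right _ (hT.and1 h)
  and2 h := by
    rcases Finset.mem_union.1 h with h | h
    · exact Finset.mem_union_left _ (hS.and2 h)
    · exact Finset.mem_union_right _ (hT.and2 h)
  all h := by
    rcases Finset.mem_union.1 h with h | h
    · exact Finset.mem_union_left _ (hS.all h)
    · exact Finset.mem_union_right _ (hT.all h)

theorem exists_closed {m : ℕ} (f : Fml ar m) :
    ∃ S : Finset (Σ m, Fml ar m), Closed S ∧ (⟨m, f⟩ : Σ m, Fml ar m) ∈ S := by
  induction f with
  | @rel m r x =>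
    refine ⟨{⟨m, .rel r x⟩, ⟨ar r, .rel r id⟩}, ⟨?_, ?_, ?_, ?_, ?_⟩, by simp⟩
    · intro m' r' x' h
      rcases Finset.mem_insert.1 h with h | h
      · cases h; simp
      · cases (Finset.mem_singleton.1 h); simp
    · intro m' f h
      rcases Finset.mem_insert.1 h with h | h
      · cases h
      · cases (Finset.mem_singleton.1 h)
    · intro m' f f' h
      rcases Finset.mem_insert.1 h with h | h
      · cases h
      · cases (Finset.mem_singleton.1 h)
    · intro m' f f' h
      rcases Finset.mem_insert.1 h with h | h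
      · cases h
      · cases (Finset.mem_singleton.1 h)
    · intro m' f h
      rcases Finset.mem_insert.1 h with h | h
      · cases h
      · cases (Finset.mem_singleton.1 h)
  | @eq m i j =>
    refine ⟨{⟨m, .eq i j⟩}, ⟨?_, ?_, ?_, ?_, ?_⟩, by simp⟩
    · intro m' r' x' h
      cases (Finset.mem_singleton.1 h)
    · intro m' f h
      cases (Finset.mem_singleton.1 h)
    · intro m' f f' h
      cases (Finset.mem_singleton.1 h)
    · intro m' f f' h
      cases (Finset.mem_singleton.1 h)
    · intro m' f h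
      cases (Finset.mem_singleton.1 h)
  | @neg m f ih =>
    obtain ⟨S, hS, hf⟩ := ih
    refine ⟨insert ⟨m, .neg f⟩ S, ⟨?_, ?_, ?_, ?_, ?_⟩, by simp⟩
    · intro m' r' x' h
      rcases Finset.mem_insert.1 h with h | h
      · cases h
      · exact Finset.mem_insert_of_mem (hS.rel h)
    · intro m' f h
      rcases Finset.mem_insert.1 h with h | h
      · cases h; exact Finset.mem_insert_of_mem hf
      · exact Finset.mem_insert_of_mem (hS.neg h)
    · intro m' f f' h
      rcases Finset.mem_insert.1 h with h | h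
      · cases h
      · exact Finset.mem_insert_of_mem (hS.and1 h)
    · intro m' f f' h
      rcases Finset.mem_insert.1 h with h | h
      · cases h
      · exact Finset.mem_insert_of_mem (hS.and2 h)
    · intro m' f h
      rcases Finset.mem_insert.1 h with h | h
      · cases h
      · exact Finset.mem_insert_of_mem (hS.all h)
  | @and m f g ih ih' =>
    obtain ⟨S₁, hS₁, hf₁⟩ := ih
    obtain ⟨S₂, hS₂, hf₂⟩ := ih'
    have hS := hS₁.union hS₂
    have hf : (⟨m, f⟩ : Σ m, Fml ar m) ∈ S₁ ∪ S₂ := Finset.mem_union_left _ hf₁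
    have hg : (⟨m, g⟩ : Σ m, Fml ar m) ∈ S₁ ∪ S₂ := Finset.mem_union_right _ hf₂
    generalize S₁ ∪ S₂ = S at hS hf hg
    refine ⟨insert ⟨m, .and f g⟩ S, ⟨?_, ?_, ?_, ?_, ?_⟩, by simp⟩
    · intro m' r' x' h
      rcases Finset.mem_insert.1 h with h | h
      · cases h
      · exact Finset.mem_insert_of_mem (hS.rel h)
    · intro m' f h
      rcases Finset.mem_insert.1 h with h | h
      · cases h
      · exact Finset.mem_insert_of_mem (hS.neg h)
    · intro m' f f' h
      rcases Finset.mem_insert.1 h with h | h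
      · cases h; exact Finset.mem_insert_of_mem hf
      · exact Finset.mem_insert_of_mem (hS.and1 h)
    · intro m' f f' h
      rcases Finset.mem_insert.1 h with h | h
      · cases h; exact Finset.mem_insert_of_mem hg
      · exact Finset.mem_insert_of_mem (hS.and2 h)
    · intro m' f h
      rcases Finset.mem_insert.1 h with h | h
      · cases h
      · exact Finset.mem_insert_of_mem (hS.all h)
  | @all m f ih =>
    obtain ⟨S, hS, hf⟩ := ih
    refine ⟨insert ⟨m, .all f⟩ S, ⟨?_, ?_, ?_, ?_, ?_⟩, by simp⟩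
    · intro m' r' x' h
      rcases Finset.mem_insert.1 h with h | h
      · cases h
      · exact Finset.mem_insert_of_mem (hS.rel h)
    · intro m' f h
      rcases Finset.mem_insert.1 h with h | h
      · cases h
      · exact Finset.mem_insert_of_mem (hS.neg h)
    · intro m' f f' h
      rcases Finset.mem_insert.1 h with h | h
      · cases h
      · exact Finset.mem_insert_of_mem (hS.and1 h)
    · intro m' f f' h
      rcases Finset.mem_insert.1 h with h | h
      · cases h
      · exact Finset.mem_insert_of_mem (hS.and2 h)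
    · intro m' f h
      rcases Finset.mem_insert.1 h with h | h
      · cases h; exact Finset.mem_insert_of_mem hf
      · exact Finset.mem_insert_of_mem (hS.all h)

variable {S : Finset (Σ m, Fml ar m)}

/-- a formula of `S` together with the values of its free variables -/
abbrev Node (S : Finset (Σ m, Fml ar m)) (B : Type) : Type :=
  Σ s : {p // p ∈ S}, (Fin s.1.1 → B)

/-- renaming of the elements -/
def Node.map {B B' : Type} (e : B → B') (g : Node S B) : Node S B' := ⟨g.1, fun i => e (g.2 i)⟩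

theorem Node.map_map {B B' B'' : Type} (e : B → B') (e' : B' → B'') (g : Node S B) :
    Node.map e' (Node.map e g) = Node.map (fun i => e' (e i)) g := rfl

/-- the node of a formula with given values of the variables -/
def kid (hS : Closed S) {B : Type} : {m : ℕ} → (f : Fml ar m) →
    (⟨m, f⟩ : Σ m, Fml ar m) ∈ S → (Fin m → B) → Node S B
  | _, .rel r x, h, b => ⟨⟨⟨ar r, .rel r id⟩, hS.rel h⟩, fun i => b (x i)⟩
  | m, .eq i j, h, b => ⟨⟨⟨m, .eq i j⟩, h⟩, b⟩
  | m, .neg f, h, b => ⟨⟨⟨m, .neg f⟩, h⟩, b⟩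
  | m, .and f f', h, b => ⟨⟨⟨m, .and f f'⟩, h⟩, b⟩
  | m, .all f, h, b => ⟨⟨⟨m, .all f⟩, h⟩, b⟩

theorem kid_map (hS : Closed S) {B B' : Type} (e : B → B') {m : ℕ} (f : Fml ar m)
    (h : (⟨m, f⟩ : Σ m, Fml ar m) ∈ S) (b : Fin m → B) :
    Node.map e (kid hS f h b) = kid hS f h (fun i => e (b i)) := by
  cases f <;> rfl

/-- all values of the variables of the node of `f` are values `b i` -/
theorem kid_over (hS : Closed S) {B : Type} {m : ℕ} (f : Fml ar m)
    (h : (⟨m, f⟩ : Σ m, Fml ar m) ∈ S) (b : Fin m → B) (E : Set B) (hb : ∀ i, b i ∈ E) :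
    ∀ i, (kid hS f h b).2 i ∈ E := by
  cases f with
  | rel r x => intro i; exact hb _
  | eq i j => exact hb
  | neg f => exact hb
  | and f f' => exact hb
  | all f => exact hb

/-- the formula at a node -/
noncomputable def gate (hS : Closed S) {B : Type} [Fintype B] : (p : Σ m, Fml ar m) → p ∈ S →
    (Fin p.1 → B) → Gt (Vr ar B) (Node S B)
  | ⟨_, .rel r x⟩, _, b => .var ⟨r, fun i => b (x i)⟩
  | ⟨_, .eq i j⟩, _, b => if b i = b j then .conj ∅ else .disj ∅
  | ⟨_, .neg f⟩, h, b => .neg (kid hS f (hS.neg h) b)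
  | ⟨_, .and f f'⟩, h, b => .conj {kid hS f (hS.and1 h) b, kid hS f' (hS.and2 h) b}
  | ⟨_, .all f⟩, h, b =>
    .conj (Finset.univ.image fun c => kid hS f (hS.all h) (Fin.snoc (α := fun _ => B) b c))

/-- the permutation of the nodes given by a permutation of the elements -/
def nodePerm {B : Type} (σ : Perm B) : Perm (Node S B) where
  toFun := Node.map σ
  invFun := Node.map σ.symm
  left_inv g := by
    rw [Node.map_map]
    simp [Node.map]
  right_inv g := by
    rw [Node.map_map]
    simp [Node.map]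

theorem snoc_comp {B B' : Type} (e : B → B') {m : ℕ} (b : Fin m → B) (c : B) :
    (fun i => e (Fin.snoc (α := fun _ => B) b c i)) =
      Fin.snoc (α := fun _ => B') (fun i => e (b i)) (e c) := by
  funext i
  refine Fin.lastCases ?_ (fun i => ?_) i
  · simp
  · simp

theorem gate_map (hS : Closed S) {B : Type} [Fintype B] (σ : Perm B) (g : Node S B) :
    gate hS (Node.map σ g).1.1 (Node.map σ g).1.2 (Node.map σ g).2 =
      (gate hS g.1.1 g.1.2 g.2).map (lv σ) (nodePerm σ) := by
  obtain ⟨⟨⟨m, f⟩, h⟩, b⟩ := g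
  cases f with
  | rel r x => rfl
  | eq i j =>
    show (if σ (b i) = σ (b j) then Gt.conj ∅ else .disj ∅) =
      Gt.map (lv σ) (nodePerm σ) (if b i = b j then .conj ∅ else .disj ∅)
    by_cases hb : b i = b j
    · simp [hb, Gt.map]
    · simp [hb, Gt.map]
  | neg f =>
    show Gt.neg (kid hS f _ fun i => σ (b i)) = Gt.neg (Node.map σ (kid hS f _ b))
    rw [kid_map]
  | and f f' =>
    show Gt.conj {kid hS f _ fun i => σ (b i), kid hS f' _ fun i => σ (b i)} =
      Gt.conj (Finset.map _ {kid hS f _ b, kid hS f' _ b})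
    rw [Finset.map_insert, Finset.map_singleton]
    show _ = Gt.conj {Node.map σ (kid hS f _ b), Node.map σ (kid hS f' _ b)}
    rw [kid_map, kid_map]
  | all f =>
    show Gt.conj (Finset.univ.image fun c =>
        kid hS f _ (Fin.snoc (α := fun _ => B) (fun i => σ (b i)) c)) =
      Gt.conj (Finset.map _ (Finset.univ.image fun c =>
        kid hS f _ (Fin.snoc (α := fun _ => B) b c)))
    congr 1
    ext g
    simp only [Finset.mem_image, Finset.mem_univ, true_and, Finset.mem_map]
    constructor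
    · rintro ⟨c, rfl⟩
      refine ⟨_, ⟨σ⁻¹ c, rfl⟩, ?_⟩
      show Node.map σ _ = _
      rw [kid_map, snoc_comp]
      simp
    · rintro ⟨_, ⟨c, rfl⟩, rfl⟩
      refine ⟨σ c, ?_⟩
      show _ = Node.map σ _
      rw [kid_map, snoc_comp]

/-- complexity of a formula -/
def rk : {m : ℕ} → Fml ar m → ℕ
  | _, .rel _ _ => 0
  | _, .eq _ _ => 0
  | _, .neg f => rk f + 1
  | _, .and f f' => rk f + rk f' + 1
  | _, .all f => rk f + 1

theorem kid_rk (hS : Closed S) {B : Type} {m : ℕ} (f : Fml ar m)
    (h : (⟨m, f⟩ : Σ m, Fml ar m) ∈ S) (b : Fin m → B) : rk (kid hS f h b).1.1.2 = rk f := by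
  cases f <;> rfl

theorem rk_lt (hS : Closed S) {B : Type} [Fintype B] (g h : Node S B)
    (hh : h ∈ (gate hS g.1.1 g.1.2 g.2).kids) : rk h.1.1.2 < rk g.1.1.2 := by
  obtain ⟨⟨⟨m, f⟩, hf⟩, b⟩ := g
  cases f with
  | rel r x => exact hh.elim
  | eq i j =>
    exfalso
    have hh' : h ∈ Gt.kids (if b i = b j then .conj ∅ else .disj ∅ : Gt (Vr ar B) (Node S B)) := hh
    split_ifs at hh'
    · simp [Gt.kids] at hh'
    · simp [Gt.kids] at hh'
  | neg f =>
    have hh' : h = kid hS f _ b := hh
    rw [hh', kid_rk]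
    show _ < rk f + 1
    omega
  | and f f' =>
    have hh' : h ∈ ({kid hS f (hS.and1 hf) b, kid hS f' (hS.and2 hf) b} : Finset _) := hh
    show _ < rk f + rk f' + 1
    rcases Finset.mem_insert.1 hh' with rfl | h'
    · rw [kid_rk]; omega
    · rw [Finset.mem_singleton.1 h', kid_rk]; omega
  | all f =>
    have hh' : h ∈ (Finset.univ.image fun c =>
      kid hS f (hS.all hf) (Fin.snoc (α := fun _ => B) b c)) := hh
    obtain ⟨c, -, rfl⟩ := Finset.mem_image.1 hh'
    rw [kid_rk]
    show _ < rk f + 1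
    omega

end Pool.Agent.T9h86.SymUp
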