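import Mathlib
import Pool.Agent.T9h86.SymUp.Defs

/-!
# Derivable sequents in few elements, and the proof which they form
-/

set_option autoImplicit false

namespace Pool.Agent.T9h86.SymUp

open Equiv
open Pool.Agent.T9h47.SF Pool.Agent.T9h47.SG
open Classical

variable {R : Type} {ar : R → ℕ} {S : Finset (Σ m, Fml ar m)}

/-- sequents in at most `k` elements: an enumeration of the elements and two sets of nodes -/
abbrev Sq (S : Finset (Σ m, Fml ar m)) (B : Type) (k : ℕ) : Type :=
  (Fin k → B) × Finset (Node S (Fin k)) × Finset (Node S (Fin k))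

/-- left side -/
noncomputable def lft {B : Type} {k : ℕ} (l : Sq S B k) : Finset (Node S B) :=
  l.2.1.image (Node.map l.1)

/-- right side -/
noncomputable def rgt {B : Type} {k : ℕ} (l : Sq S B k) : Finset (Node S B) :=
  l.2.2.image (Node.map l.1)

/-- the action of permutations on sequents -/
def sqPerm {B : Type} {k : ℕ} (σ : Perm B) : Perm (Sq S B k) where
  toFun l := (fun i => σ (l.1 i), l.2)
  invFun l := (fun i => σ.symm (l.1 i), l.2)
  left_inv l := by simp
  right_inv l := by simp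

theorem lft_perm {B : Type} {k : ℕ} (σ : Perm B) (l : Sq S B k) :
    lft (sqPerm σ l) = (lft l).map (nodePerm σ).toEmbedding := by
  rw [Finset.map_eq_image]
  unfold lft
  rw [Finset.image_image]
  rfl

theorem rgt_perm {B : Type} {k : ℕ} (σ : Perm B) (l : Sq S B k) :
    rgt (sqPerm σ l) = (rgt l).map (nodePerm σ).toEmbedding := by
  rw [Finset.map_eq_image]
  unfold rgt
  rw [Finset.image_image]
  rfl

/-- the formula at a node -/
noncomputable abbrev gt (hS : Closed S) {B : Type} [Fintype B] (g : Node S B) :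
    Gt (Vr ar B) (Node S B) := gate hS g.1.1 g.1.2 g.2

/-- `l` is obtained by a rule from sequents in `D` (with `top` on the right as an axiom) -/
inductive Step (hS : Closed S) {B : Type} [Fintype B] {k : ℕ} (top : Node S B)
    (D : Sq S B k → Prop) (l : Sq S B k) : Prop
  | top : top ∈ rgt l → Step hS top D l
  | ident (g : Node S B) : g ∈ lft l → g ∈ rgt l → Step hS top D l
  | cut (g : Node S B) (l₁ l₂ : Sq S B k) : D l₁ → D l₂ →
      (∀ a ∈ lft l₁, a ∈ (lft l : Set (Node S B))) →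
      (∀ a ∈ rgt l₁, a ∈ insert g (rgt l : Set (Node S B))) →
      (∀ a ∈ lft l₂, a ∈ insert g (lft l : Set (Node S B))) →
      (∀ a ∈ rgt l₂, a ∈ (rgt l : Set (Node S B))) → Step hS top D l
  | negL (g h : Node S B) (l' : Sq S B k) : gt hS g = .neg h → g ∈ lft l → D l' →
      (∀ a ∈ lft l', a ∈ (lft l : Set (Node S B))) →
      (∀ a ∈ rgt l', a ∈ insert h (rgt l : Set (Node S B))) → Step hS top D l
  | negR (g h : Node S B) (l' : Sq S B k) : gt hS g = .neg h → g ∈ rgt l → D l' →
      (∀ a ∈ lft l', a ∈ insert h (lft l : Set (Node S B))) →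
      (∀ a ∈ rgt l', a ∈ (rgt l : Set (Node S B))) → Step hS top D l
  | conjL (g h : Node S B) (T : Finset (Node S B)) (l' : Sq S B k) : gt hS g = .conj T →
      g ∈ lft l → h ∈ T → D l' →
      (∀ a ∈ lft l', a ∈ insert h (lft l : Set (Node S B))) →
      (∀ a ∈ rgt l', a ∈ (rgt l : Set (Node S B))) → Step hS top D l
  | conjR (g : Node S B) (T : Finset (Node S B)) : gt hS g = .conj T → g ∈ rgt l →
      (∀ h ∈ T, ∃ l', D l' ∧ (∀ a ∈ lft l', a ∈ (lft l : Set (Node S B))) ∧
      (∀ a ∈ rgt l', a ∈ insert h (rgt l : Set (Node S B)))) → Step hS top D l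
  | disjL (g : Node S B) : gt hS g = .disj ∅ → g ∈ lft l → Step hS top D l

theorem Step.mono {hS : Closed S} {B : Type} [Fintype B] {k : ℕ} {top : Node S B}
    {D D' : Sq S B k → Prop} (hD : ∀ l, D l → D' l) {l : Sq S B k} (h : Step hS top D l) :
    Step hS top D' l := by
  cases h with
  | top h => exact .top h
  | ident g h h' => exact .ident g h h'
  | cut g l₁ l₂ h₁ h₂ a b c d => exact .cut g l₁ l₂ (hD _ h₁) (hD _ h₂) a b c d
  | negL g h l' a b c d e => exact .negL g h l' a b (hD _ c) d e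
  | negR g h l' a b c d e => exact .negR g h l' a b (hD _ c) d e
  | conjL g h T l' a b c d e f => exact .conjL g h T l' a b c (hD _ d) e f
  | conjR g T a b c =>
    refine .conjR g T a b fun h hh => ?_
    obtain ⟨l', h1, h2, h3⟩ := c h hh
    exact ⟨l', hD _ h1, h2, h3⟩
  | disjL g a b => exact .disjL g a b

/-- the sequents which are derivable in `n` rounds -/
def Der (hS : Closed S) {B : Type} [Fintype B] {k : ℕ} (top : Node S B) :
    ℕ → Sq S B k → Prop
  | 0, _ => False
  | n + 1, l => Der hS top n l ∨ Step hS top (Der hS top n) l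

theorem Der.mono {hS : Closed S} {B : Type} [Fintype B] {k : ℕ} {top : Node S B} {n m : ℕ}
    (hnm : n ≤ m) {l : Sq S B k} (h : Der hS top n l) : Der hS top m l := by
  induction hnm with
  | refl => exact h
  | step _ ih => exact Or.inl ih

/-- derivability -/
def Drv (hS : Closed S) {B : Type} [Fintype B] {k : ℕ} (top : Node S B) (l : Sq S B k) : Prop :=
  ∃ n, Der hS top n l

theorem Drv.of_step {hS : Closed S} {B : Type} [Fintype B] {k : ℕ} {top : Node S B}
    {l : Sq S B k} (h : Step hS top (Drv hS top) l) : Drv hS top l := by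
  suffices h' : ∃ n, Step hS top (Der hS top n) l by
    obtain ⟨n, hn⟩ := h'
    exact ⟨n + 1, Or.inr hn⟩
  cases h with
  | top h => exact ⟨0, .top h⟩
  | ident g h h' => exact ⟨0, .ident g h h'⟩
  | cut g l₁ l₂ h₁ h₂ a b c d =>
    obtain ⟨n, hn⟩ := h₁
    obtain ⟨m, hm⟩ := h₂
    exact ⟨max n m, .cut g l₁ l₂ (hn.mono (le_max_left _ _)) (hm.mono (le_max_right _ _))
      a b c d⟩
  | negL g h l' a b c d e =>
    obtain ⟨n, hn⟩ := c
    exact ⟨n, .negL g h l' a b hn d e⟩
  | negR g h l' a b c d e =>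
    obtain ⟨n, hn⟩ := c
    exact ⟨n, .negR g h l' a b hn d e⟩
  | conjL g h T l' a b c d e f =>
    obtain ⟨n, hn⟩ := d
    exact ⟨n, .conjL g h T l' a b c hn e f⟩
  | conjR g T a b c =>
    have : Nonempty (Sq S B k) := ⟨l⟩
    choose! l' h1 h2 h3 using c
    choose! n hn using h1
    refine ⟨T.sup n, .conjR g T a b fun h hh => ⟨l' h, ?_, h2 h hh, h3 h hh⟩⟩
    exact (hn h hh).mono (Finset.le_sup (f := n) hh)
  | disjL g a b => exact ⟨0, .disjL g a b⟩

theorem Step.perm {hS : Closed S} {B : Type} [Fintype B] {k : ℕ} {top : Node S B}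
    {D D' : Sq S B k → Prop} (σ : Perm B) (htop : Node.map σ top = top)
    (hD : ∀ l, D l → D' (sqPerm σ l)) {l : Sq S B k} (h : Step hS top D l) :
    Step hS top D' (sqPerm σ l) := by
  have key : ∀ (a : Node S B) (l : Sq S B k), a ∈ lft l → Node.map σ a ∈ lft (sqPerm σ l) := by
    intro a l ha
    rw [lft_perm]
    exact Finset.mem_map_of_mem _ ha
  have key' : ∀ (a : Node S B) (l : Sq S B k), a ∈ rgt l → Node.map σ a ∈ rgt (sqPerm σ l) := by
    intro a l ha
    rw [rgt_perm]
    exact Finset.mem_map_of_mem _ ha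
  have gk : ∀ g : Node S B, gt hS (Node.map σ g) = (gt hS g).map (lv σ) (nodePerm σ) :=
    gate_map hS σ
  have s1 : ∀ l l' : Sq S B k, (∀ a ∈ lft l', a ∈ (lft l : Set (Node S B))) →
      (∀ a ∈ lft (sqPerm σ l'), a ∈ (lft (sqPerm σ l) : Set (Node S B))) := by
    intro l l' h a ha
    rw [lft_perm] at ha
    obtain ⟨b, hb, rfl⟩ := Finset.mem_map.1 ha
    exact key _ _ (h b hb)
  have s2 : ∀ l l' : Sq S B k, (∀ a ∈ rgt l', a ∈ (rgt l : Set (Node S B))) →
      (∀ a ∈ rgt (sqPerm σ l'), a ∈ (rgt (sqPerm σ l) : Set (Node S B))) := by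
    intro l l' h a ha
    rw [rgt_perm] at ha
    obtain ⟨b, hb, rfl⟩ := Finset.mem_map.1 ha
    exact key' _ _ (h b hb)
  have s3 : ∀ (l l' : Sq S B k) (g : Node S B),
      (∀ a ∈ lft l', a ∈ insert g (lft l : Set (Node S B))) →
      (∀ a ∈ lft (sqPerm σ l'), a ∈ insert (Node.map σ g) (lft (sqPerm σ l) : Set (Node S B))) := by
    intro l l' g h a ha
    rw [lft_perm] at ha
    obtain ⟨b, hb, rfl⟩ := Finset.mem_map.1 ha
    rcases h b hb with rfl | h'
    · exact Or.inl rfl
    · exact Or.inr (key _ _ h')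
  have s4 : ∀ (l l' : Sq S B k) (g : Node S B),
      (∀ a ∈ rgt l', a ∈ insert g (rgt l : Set (Node S B))) →
      (∀ a ∈ rgt (sqPerm σ l'), a ∈ insert (Node.map σ g) (rgt (sqPerm σ l) : Set (Node S B))) := by
    intro l l' g h a ha
    rw [rgt_perm] at ha
    obtain ⟨b, hb, rfl⟩ := Finset.mem_map.1 ha
    rcases h b hb with rfl | h'
    · exact Or.inl rfl
    · exact Or.inr (key' _ _ h')
  cases h with
  | top h => exact .top (by have := key' _ _ h; rwa [htop] at this)
  | ident g h h' => exact .ident _ (key _ _ h) (key' _ _ h')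
  | cut g l₁ l₂ h₁ h₂ a b c d =>
    exact .cut (Node.map σ g) _ _ (hD _ h₁) (hD _ h₂) (s1 _ _ a) (s4 _ _ _ b) (s3 _ _ _ c)
      (s2 _ _ d)
  | negL g h l' a b c d e =>
    exact .negL (Node.map σ g) (Node.map σ h) _ (by rw [gk, a]; rfl) (key _ _ b) (hD _ c)
      (s1 _ _ d) (s4 _ _ _ e)
  | negR g h l' a b c d e =>
    exact .negR (Node.map σ g) (Node.map σ h) _ (by rw [gk, a]; rfl) (key' _ _ b) (hD _ c)
      (s3 _ _ _ d) (s2 _ _ e)
  | conjL g h T l' a b c d e f =>
    exact .conjL (Node.map σ g) (Node.map σ h) (T.map (nodePerm σ).toEmbedding) _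
      (by rw [gk, a]; rfl) (key _ _ b) (Finset.mem_map_of_mem _ c) (hD _ d)
      (s3 _ _ _ e) (s2 _ _ f)
  | conjR g T a b c =>
    refine .conjR (Node.map σ g) (T.map (nodePerm σ).toEmbedding) (by rw [gk, a]; rfl)
      (key' _ _ b) fun h hh => ?_
    obtain ⟨h', hh', rfl⟩ := Finset.mem_map.1 hh
    obtain ⟨l', h1, h2, h3⟩ := c h' hh'
    exact ⟨_, hD _ h1, s1 _ _ h2, s4 _ _ _ h3⟩
  | disjL g a b =>
    exact .disjL (Node.map σ g) (by rw [gk, a]; simp [Gt.map]) (key _ _ b)

theorem Der.perm {hS : Closed S} {B : Type} [Fintype B] {k : ℕ} {top : Node S B}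
    (σ : Perm B) (htop : Node.map σ top = top) (n : ℕ) (l : Sq S B k) (h : Der hS top n l) :
    Der hS top n (sqPerm σ l) := by
  induction n generalizing l with
  | zero => exact h.elim
  | succ n ih =>
    rcases h with h | h
    · exact Or.inl (ih l h)
    · exact Or.inr (h.perm σ htop ih)

theorem Drv.perm {hS : Closed S} {B : Type} [Fintype B] {k : ℕ} {top : Node S B}
    (σ : Perm B) (htop : Node.map σ top = top) (l : Sq S B k) (h : Drv hS top l) :
    Drv hS top (sqPerm σ l) := by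
  obtain ⟨n, hn⟩ := h
  exact ⟨n, hn.perm σ htop⟩

/-- the proof whose sequents are all derivable sequents in `k` elements -/
noncomputable def prf (hS : Closed S) {B : Type} [Fintype B] (k : ℕ) (top : Node S B) :
    Pf (Vr ar B) where
  G := Node S B
  L := {l : Sq S B k // Drv hS top l}
  finG := inferInstance
  finL := inferInstance
  gate := gt hS
  grank g := rk g.1.1.2
  grank_lt g h hh := rk_lt hS g h hh
  left l := lft l.1
  right l := rgt l.1
  lrank l := Nat.find l.2

theorem prf_rule {hS : Closed S} {B : Type} [Fintype B] {k : ℕ} {top : Node S B}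
    (l : (prf hS k top).L) : top ∈ (prf hS k top).right l ∨ (prf hS k top).Rule ∅ l := by
  obtain ⟨l, hl⟩ := l
  have hfind := Nat.find_spec hl
  have hmin : ∀ n, n < Nat.find hl → ¬ Der hS top n l := fun n hn => Nat.find_min hl hn
  have hrk : ∀ (l' : Sq S B k) (n : ℕ) (h' : Der hS top n l'), n < Nat.find hl →
      (prf hS k top).lrank ⟨l', ⟨n, h'⟩⟩ < (prf hS k top).lrank ⟨l, hl⟩ := by
    intro l' n h' hn
    show Nat.find _ < Nat.find _
    exact lt_of_le_of_lt (Nat.find_min' _ h') hn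
  generalize Nat.find hl = N at hfind hmin hrk
  cases N with
  | zero => exact hfind.elim
  | succ n =>
    have hst : Step hS top (Der hS top n) l := by
      rcases hfind with h | h
      · exact absurd h (hmin n (Nat.lt_succ_self n))
      · exact h
    have hrk' : ∀ (l' : Sq S B k) (h' : Der hS top n l'),
      (prf hS k top).lrank ⟨l', ⟨n, h'⟩⟩ < (prf hS k top).lrank ⟨l, hl⟩ :=
      fun l' h' => hrk l' n h' (Nat.lt_succ_self n)
    cases hst with
    | top h => exact Or.inl h
    | ident g h h' => exact Or.inr (.ident g h h')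
    | cut g l₁ l₂ h₁ h₂ a b c d =>
      exact Or.inr (.cut g ⟨l₁, ⟨n, h₁⟩⟩ ⟨l₂, ⟨n, h₂⟩⟩ ⟨hrk' _ h₁, a, b⟩ ⟨hrk' _ h₂, c, d⟩)
    | negL g h l' a b c d e =>
      exact Or.inr (.negL g h ⟨l', ⟨n, c⟩⟩ a b ⟨hrk' _ c, d, e⟩)
    | negR g h l' a b c d e =>
      exact Or.inr (.negR g h ⟨l', ⟨n, c⟩⟩ a b ⟨hrk' _ c, d, e⟩)
    | conjL g h T l' a b c d e f =>
      exact Or.inr (.conjL g h T ⟨l', ⟨n, d⟩⟩ a b c ⟨hrk' _ d, e, f⟩)
    | conjR g T a b c =>
      refine Or.inr (.conjR g T a b fun h hh => ?_)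
      obtain ⟨l', h1, h2, h3⟩ := c h hh
      exact ⟨⟨l', ⟨n, h1⟩⟩, hrk' _ h1, h2, h3⟩
    | disjL g a b =>
      exact Or.inr (.disjL g ∅ a b fun h hh => absurd hh (Finset.notMem_empty h))

theorem prf_sym {hS : Closed S} {B : Type} [Fintype B] {k : ℕ} {top : Node S B}
    (htop : ∀ σ : Perm B, Node.map σ top = top) (σ : Perm B) :
    ∃ α β, (prf hS k top).Ext (lv σ) α β := by
  refine ⟨nodePerm σ, ?_, ?_⟩
  · refine (sqPerm σ).subtypePerm fun l => ⟨fun h => ?_, fun h => h.perm σ (htop σ)⟩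
    have := h.perm σ⁻¹ (htop σ⁻¹)
    have e : sqPerm σ⁻¹ (sqPerm σ l) = l := by
      obtain ⟨a, b⟩ := l
      simp [sqPerm]
    rwa [e] at this
  · refine ⟨fun g => gate_map hS σ g, fun l => ?_, fun l => ?_⟩
    · exact lft_perm σ l.1
    · exact rgt_perm σ l.1

/-- the nodes of the proof represent the formulas -/
theorem prf_rep (hS : Closed S) {B : Type} [Fintype B] (k : ℕ) (top : Node S B) {m : ℕ}
    (f : Fml ar m) (hf : (⟨m, f⟩ : Σ m, Fml ar m) ∈ S) (b : Fin m → B) :
    Rep (prf hS k top) f b (kid hS f hf b) := by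
  induction f with
  | rel r x => rfl
  | @eq m i j =>
    show (b i = b j ∧ (if b i = b j then Gt.conj ∅ else .disj ∅ : Gt (Vr ar B) (Node S B)) =
      .conj ∅) ∨ (b i ≠ b j ∧ (if b i = b j then Gt.conj ∅ else .disj ∅ :
        Gt (Vr ar B) (Node S B)) = .disj ∅)
    by_cases h : b i = b j
    · left; exact ⟨h, if_pos h⟩
    · right; exact ⟨h, if_neg h⟩
  | neg f ih => exact ⟨_, rfl, ih (hS.neg hf) b⟩
  | and f f' ih ih' =>
    have e : ∀ g : Node S B, g ∈ ({kid hS f (hS.and1 hf) b, kid hS f' (hS.and2 hf) b} :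
        Finset (Node S B)) ↔ g = kid hS f (hS.and1 hf) b ∨ g = kid hS f' (hS.and2 hf) b := by
      intro g
      rw [Finset.mem_insert, Finset.mem_singleton]
    exact ⟨({kid hS f (hS.and1 hf) b, kid hS f' (hS.and2 hf) b} : Finset (Node S B)),
      kid hS f (hS.and1 hf) b, kid hS f' (hS.and2 hf) b, rfl, e, ih (hS.and1 hf) b,
      ih' (hS.and2 hf) b⟩
  | all f ih =>
    have e : ∀ g : Node S B, g ∈ (Finset.univ.image fun c => kid hS f (hS.all hf)
        (Fin.snoc (α := fun _ => B) b c) : Finset (Node S B)) ↔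
        ∃ c, g = kid hS f (hS.all hf) (Fin.snoc (α := fun _ => B) b c) := by
      intro g
      simp only [Finset.mem_image, Finset.mem_univ, true_and]
      exact ⟨fun ⟨c, hc⟩ => ⟨c, hc.symm⟩, fun ⟨c, hc⟩ => ⟨c, hc.symm⟩⟩
    exact ⟨(Finset.univ.image fun c => kid hS f (hS.all hf)
        (Fin.snoc (α := fun _ => B) b c) : Finset (Node S B)),
      fun c => kid hS f (hS.all hf) (Fin.snoc (α := fun _ => B) b c), rfl, e,
      fun c => ih (hS.all hf) _⟩

end Pool.Agent.T9h86.SymUp
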