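import Mathlib
import Pool.Agent.T9h86.SymUp.Derive

/-!
# Sequents which are not derivable are extended with witnesses
-/

set_option autoImplicit false

namespace Pool.Agent.T9h86.SymUp

open Equiv
open Pool.Agent.T9h47.SF Pool.Agent.T9h47.SG
open Classical

variable {R : Type} {ar : R → ℕ} {S : Finset (Σ m, Fml ar m)}

/-- some derivable sequent has its left side in `X` and its right side in `Y` -/
def Ded (hS : Closed S) {B : Type} [Fintype B] (k : ℕ) (top : Node S B)
    (X Y : Set (Node S B)) : Prop :=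
  ∃ l : Sq S B k, Drv hS top l ∧ (∀ a ∈ lft l, a ∈ X) ∧ (∀ a ∈ rgt l, a ∈ Y)

/-- all values of the variables are in `E` -/
def Ov {B : Type} (E : Set B) (g : Node S B) : Prop := ∀ i, g.2 i ∈ E

/-- `E` has at most `k` elements -/
def Sml {B : Type} (k : ℕ) (E : Set B) : Prop := ∃ e : Fin k → B, E ⊆ Set.range e

theorem exact_sq {B : Type} {k : ℕ} {E : Set B} (hE : Sml k E) (X Y : Set (Node S B))
    (hX : ∀ g ∈ X, Ov E g) (hY : ∀ g ∈ Y, Ov E g) :
    ∃ l : Sq S B k, (lft l : Set (Node S B)) = X ∧ (rgt l : Set (Node S B)) = Y := by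
  obtain ⟨e, he⟩ := hE
  have key : ∀ g : Node S B, Ov E g → ∃ g' : Node S (Fin k), Node.map e g' = g := by
    intro g hg
    have : ∀ i, ∃ j, e j = g.2 i := fun i => he (hg i)
    choose b hb using this
    refine ⟨⟨g.1, b⟩, ?_⟩
    obtain ⟨s, c⟩ := g
    unfold Node.map
    congr 1
    funext i
    exact hb i
  have key2 : ∀ Z : Set (Node S B), (∀ g ∈ Z, Ov E g) →
      (((Finset.univ.filter fun g' : Node S (Fin k) => Node.map e g' ∈ Z).image (Node.map e) :
        Finset (Node S B)) : Set (Node S B)) = Z := by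
    intro Z hZ
    ext g
    simp only [Finset.coe_image, Finset.coe_filter, Finset.mem_univ, true_and, Set.mem_image,
      Set.mem_ofPred_eq]
    constructor
    · rintro ⟨g', h, rfl⟩
      exact h
    · intro h
      obtain ⟨g', hg'⟩ := key g (hZ g h)
      exact ⟨g', hg' ▸ h, hg'⟩
  exact ⟨(e, _, _), key2 X hX, key2 Y hY⟩

variable {hS : Closed S} {B : Type} [Fintype B] {k : ℕ} {top : Node S B}

theorem Ded.mono {X Y X' Y' : Set (Node S B)} (hX : X ⊆ X') (hY : Y ⊆ Y')
    (h : Ded hS k top X Y) : Ded hS k top X' Y' := by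
  obtain ⟨l, h, h1, h2⟩ := h
  exact ⟨l, h, fun a ha => hX (h1 a ha), fun a ha => hY (h2 a ha)⟩

theorem ded_of_step {E : Set B} (hE : Sml k E) {X Y : Set (Node S B)}
    (hX : ∀ g ∈ X, Ov E g) (hY : ∀ g ∈ Y, Ov E g)
    (h : ∀ l : Sq S B k, (lft l : Set (Node S B)) = X → (rgt l : Set (Node S B)) = Y →
      Step hS top (Drv hS top) l) : Ded hS k top X Y := by
  obtain ⟨l, h1, h2⟩ := exact_sq hE X Y hX hY
  refine ⟨l, Drv.of_step (h l h1 h2), fun a ha => ?_, fun a ha => ?_⟩
  · rw [← h1]; exact ha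
  · rw [← h2]; exact ha

theorem ded_ident {E : Set B} (hE : Sml k E) {g : Node S B} (hg : Ov E g)
    {X Y : Set (Node S B)} (h1 : g ∈ X) (h2 : g ∈ Y) : Ded hS k top X Y := by
  have : Ded hS k top {g} {g} := by
    refine ded_of_step hE ?_ ?_ fun l hl hr => ?_
    · rintro _ rfl; exact hg
    · rintro _ rfl; exact hg
    · refine .ident g ?_ ?_
      · rw [← Finset.mem_coe, hl]; rfl
      · rw [← Finset.mem_coe, hr]; rfl
  exact this.mono (by rintro _ rfl; exact h1) (by rintro _ rfl; exact h2)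

/-- a sequent which is not derivable and contains all nodes in elements of `E` -/
structure Cpl (hS : Closed S) (k : ℕ) (top : Node S B) (E : Set B) (X Y : Set (Node S B)) :
    Prop where
  nd : ¬ Ded hS k top X Y
  ov : ∀ g, (g ∈ X ∨ g ∈ Y) ↔ Ov E g
  sml : Sml k E

section

variable {E : Set B} {X Y : Set (Node S B)}

theorem Cpl.hX (C : Cpl hS k top E X Y) : ∀ g ∈ X, Ov E g := fun g hg => (C.ov g).1 (Or.inl hg)

theorem Cpl.hY (C : Cpl hS k top E X Y) : ∀ g ∈ Y, Ov E g := fun g hg => (C.ov g).1 (Or.inr hg)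

theorem Cpl.disj (C : Cpl hS k top E X Y) {g : Node S B} (h1 : g ∈ X) (h2 : g ∈ Y) : False :=
  C.nd (ded_ident C.sml (C.hX g h1) h1 h2)

theorem Cpl.step (C : Cpl hS k top E X Y) :
    ¬ ∀ l : Sq S B k, (lft l : Set (Node S B)) = X → (rgt l : Set (Node S B)) = Y →
      Step hS top (Drv hS top) l :=
  fun h => C.nd (ded_of_step C.sml C.hX C.hY h)

theorem Cpl.topX (C : Cpl hS k top E X Y) (h : Ov E top) : top ∈ X := by
  rcases (C.ov top).2 h with h | h
  · exact h
  · refine (C.step fun l hl hr => .top ?_).elim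
    rw [← Finset.mem_coe, hr]
    exact h

theorem Cpl.negL (C : Cpl hS k top E X Y) {g h : Node S B} (hg : gt hS g = .neg h)
    (h1 : g ∈ X) (h2 : h ∈ X) : False := by
  have : Ded hS k top X (insert h Y) := ded_ident C.sml (C.hX h h2) h2 (Set.mem_insert _ _)
  obtain ⟨l', hl', ha, hb⟩ := this
  refine C.step fun l hl hr => .negL g h l' hg ?_ hl' ?_ ?_
  · rw [← Finset.mem_coe, hl]; exact h1
  · rw [hl]; exact ha
  · rw [hr]; exact hb

theorem Cpl.negR (C : Cpl hS k top E X Y) {g h : Node S B} (hg : gt hS g = .neg h)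
    (h1 : g ∈ Y) (h2 : h ∈ Y) : False := by
  have : Ded hS k top (insert h X) Y := ded_ident C.sml (C.hY h h2) (Set.mem_insert _ _) h2
  obtain ⟨l', hl', ha, hb⟩ := this
  refine C.step fun l hl hr => .negR g h l' hg ?_ hl' ?_ ?_
  · rw [← Finset.mem_coe, hr]; exact h1
  · rw [hl]; exact ha
  · rw [hr]; exact hb

theorem Cpl.conjL (C : Cpl hS k top E X Y) {g h : Node S B} {T : Finset (Node S B)}
    (hg : gt hS g = .conj T) (h1 : g ∈ X) (hT : h ∈ T) (h2 : h ∈ Y) : False := by
  have : Ded hS k top (insert h X) Y := ded_ident C.sml (C.hY h h2) (Set.mem_insert _ _) h2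
  obtain ⟨l', hl', ha, hb⟩ := this
  refine C.step fun l hl hr => .conjL g h T l' hg ?_ hT hl' ?_ ?_
  · rw [← Finset.mem_coe, hl]; exact h1
  · rw [hl]; exact ha
  · rw [hr]; exact hb

theorem Cpl.conjR (C : Cpl hS k top E X Y) {g : Node S B} {T : Finset (Node S B)}
    (hg : gt hS g = .conj T) (h1 : g ∈ Y) : ∃ h ∈ T, ¬ Ded hS k top X (insert h Y) := by
  by_contra hcon
  push Not at hcon
  refine C.step fun l hl hr => .conjR g T hg ?_ fun h hh => ?_
  · rw [← Finset.mem_coe, hr]; exact h1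
  · obtain ⟨l', hl', ha, hb⟩ := hcon h hh
    rw [hl, hr]
    exact ⟨l', hl', ha, hb⟩

theorem Cpl.conjR' (C : Cpl hS k top E X Y) {g : Node S B} {T : Finset (Node S B)}
    (hg : gt hS g = .conj T) (h1 : g ∈ Y) : ∃ h ∈ T, h ∉ X := by
  obtain ⟨h, hh, hd⟩ := C.conjR hg h1
  exact ⟨h, hh, fun hX => hd (ded_ident C.sml (C.hX h hX) hX (Set.mem_insert _ _))⟩

theorem Cpl.disjL (C : Cpl hS k top E X Y) {g : Node S B}
    (hg : gt hS g = .disj ∅) (h1 : g ∈ X) : False := by
  refine C.step fun l hl hr => .disjL g hg ?_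
  rw [← Finset.mem_coe, hl]; exact h1

theorem Cpl.notX (C : Cpl hS k top E X Y) {g : Node S B} (hg : Ov E g) : g ∉ X ↔ g ∈ Y := by
  constructor
  · intro h
    rcases (C.ov g).2 hg with h' | h'
    · exact (h h').elim
    · exact h'
  · intro h h'
    exact C.disj h' h

/-- cut: every sequent which is not derivable is contained in a complete one -/
theorem extend (hE : Sml k E) (hX : ∀ g ∈ X, Ov E g) (hY : ∀ g ∈ Y, Ov E g)
    (hnd : ¬ Ded hS k top X Y) : ∃ X' Y', X ⊆ X' ∧ Y ⊆ Y' ∧ Cpl hS k top E X' Y' := by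
  have hfin : Finite (Set (Node S B) × Set (Node S B)) := inferInstance
  obtain ⟨⟨X', Y'⟩, hle, hmax⟩ := Finite.exists_le_maximal
    (p := fun Z : Set (Node S B) × Set (Node S B) => (∀ g ∈ Z.1, Ov E g) ∧ (∀ g ∈ Z.2, Ov E g) ∧
      ¬ Ded hS k top Z.1 Z.2) (a := (X, Y)) ⟨hX, hY, hnd⟩
  obtain ⟨⟨h1, h2, h3⟩, hmax⟩ := hmax
  refine ⟨X', Y', hle.1, hle.2, h3, fun g => ⟨?_, ?_⟩, hE⟩
  · rintro (h | h)
    · exact h1 g h
    · exact h2 g h
  · intro hg
    by_contra hcon
    push Not at hcon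
    have hb : Ded hS k top X' (insert g Y') := by
      by_contra hn
      have := hmax (y := (X', insert g Y')) ⟨h1, ?_, hn⟩ ⟨le_refl _, Set.subset_insert _ _⟩
      · exact hcon.2 (this.2 (Set.mem_insert _ _))
      · rintro a (rfl | ha)
        · exact hg
        · exact h2 a ha
    have ha : Ded hS k top (insert g X') Y' := by
      by_contra hn
      have := hmax (y := (insert g X', Y')) ⟨?_, h2, hn⟩ ⟨Set.subset_insert _ _, le_refl _⟩
      · exact hcon.1 (this.1 (Set.mem_insert _ _))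
      · rintro a (rfl | ha)
        · exact hg
        · exact h1 a ha
    obtain ⟨l₁, d1, a1, b1⟩ := hb
    obtain ⟨l₂, d2, a2, b2⟩ := ha
    refine h3 (ded_of_step hE h1 h2 fun l hl hr => .cut g l₁ l₂ d1 d2 ?_ ?_ ?_ ?_)
    · rw [hl]; exact a1
    · rw [hr]; exact b1
    · rw [hl]; exact a2
    · rw [hr]; exact b2

end

/-- the universal formulas in elements of `ℕ` -/
abbrev Tsk (S : Finset (Σ m, Fml ar m)) : Type :=
  Σ s : {p : Σ m, Fml ar (m + 1) // (⟨p.1, .all p.2⟩ : Σ m, Fml ar m) ∈ S}, (Fin s.1.1 → ℕ)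

/-- the witness for task `t` exists -/
def Done (hS : Closed S) (T : ℕ → Option (Tsk S)) (c : ℕ → B) (Y : Set (Node S B)) (t : ℕ) :
    Prop :=
  ∀ s, T t = some s → (∀ i, s.2 i < t) →
    kid hS (.all s.1.1.2) s.1.2 (fun i => c (s.2 i)) ∈ Y →
    ∃ j ≤ t, kid hS s.1.1.2 (hS.all s.1.2)
      (Fin.snoc (α := fun _ => B) (fun i => c (s.2 i)) (c j)) ∈ Y

theorem stage (T : ℕ → Option (Tsk S)) (hB : k ≤ Fintype.card B) (hk : 1 ≤ k)
    (hnd : ¬ Ded hS k top ∅ ∅) (n : ℕ) (hn : n ≤ k) :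
    ∃ (c : ℕ → B) (X Y : Set (Node S B)), Set.InjOn c (Set.Iio n) ∧
      Cpl hS k top (c '' Set.Iio n) X Y ∧ ∀ t < n, Done hS T c Y t := by
  induction n with
  | zero =>
    have hne : Nonempty B := Fintype.card_pos_iff.1 (by omega)
    obtain ⟨b0⟩ := hne
    obtain ⟨X, Y, -, -, hC⟩ := extend (hS := hS) (k := k) (top := top) (E := (∅ : Set B))
      (X := ∅) (Y := ∅) ⟨fun _ => b0, Set.empty_subset _⟩ (by simp) (by simp) hnd
    refine ⟨fun _ => b0, X, Y, by simp [Set.InjOn], ?_, by simp⟩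
    have : (fun _ : ℕ => b0) '' Set.Iio 0 = ∅ := by
      ext x; simp
    rwa [this]
  | succ n ih =>
    obtain ⟨c, X, Y, hinj, C, hdone⟩ := ih (by omega)
    set E : Set B := c '' Set.Iio n with hEdef
    -- the witness
    obtain ⟨w, Y1, hYY1, hY1, hnd1, hw⟩ : ∃ (w : B) (Y1 : Set (Node S B)), Y ⊆ Y1 ∧
        (∀ g ∈ Y1, Ov (insert w E) g) ∧ ¬ Ded hS k top X Y1 ∧
        (∀ s, T n = some s → (∀ i, s.2 i < n) →
          kid hS (.all s.1.1.2) s.1.2 (fun i => c (s.2 i)) ∈ Y →
          kid hS s.1.1.2 (hS.all s.1.2)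
            (Fin.snoc (α := fun _ => B) (fun i => c (s.2 i)) w) ∈ Y1) := by
      by_cases hex : ∃ s, T n = some s ∧ (∀ i, s.2 i < n) ∧
          kid hS (.all s.1.1.2) s.1.2 (fun i => c (s.2 i)) ∈ Y
      · obtain ⟨s, hs, hlt, hY⟩ := hex
        obtain ⟨h, hh, hd⟩ := C.conjR (g := kid hS (.all s.1.1.2) s.1.2 (fun i => c (s.2 i)))
          (T := Finset.univ.image fun c' => kid hS s.1.1.2 (hS.all s.1.2)
            (Fin.snoc (α := fun _ => B) (fun i => c (s.2 i)) c')) rfl hY
        obtain ⟨w, -, rfl⟩ := Finset.mem_image.1 hh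
        refine ⟨w, _, Set.subset_insert _ _, ?_, hd, ?_⟩
        · rintro g (rfl | hg)
          · refine kid_over hS _ _ _ _ fun i => ?_
            refine Fin.lastCases ?_ (fun i => ?_) i
            · rw [Fin.snoc_last]; exact Set.mem_insert _ _
            · rw [Fin.snoc_castSucc]
              exact Set.mem_insert_of_mem _ ⟨s.2 i, hlt i, rfl⟩
          · exact fun i => Set.mem_insert_of_mem _ (C.hY g hg i)
        · intro s' hs' _ _
          rw [hs] at hs'
          cases hs'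
          exact Set.mem_insert _ _
      · refine ⟨c 0, Y, subset_refl _, fun g hg i => Set.mem_insert_of_mem _ (C.hY g hg i), C.nd,
          fun s h1 h2 h3 => (hex ⟨s, h1, h2, h3⟩).elim⟩
    -- the new element
    obtain ⟨d, hd, hwd⟩ : ∃ d, d ∉ E ∧ (w ∈ insert d E) := by
      by_cases hwE : w ∈ E
      · have hcard : Set.ncard E < Fintype.card B := by
          have h1 : E.ncard ≤ (Set.Iio n : Set ℕ).ncard := Set.ncard_image_le (Set.finite_Iio n)
          have h2 : (Set.Iio n : Set ℕ).ncard = n := by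
            rw [← Nat.card_coe_set_eq]; simp
          omega
        have : E ≠ Set.univ := by
          intro h
          rw [h, Set.ncard_univ, Nat.card_eq_fintype_card] at hcard
          omega
        obtain ⟨d, hd⟩ := (Set.ne_univ_iff_exists_notMem E).1 this
        exact ⟨d, hd, Set.mem_insert_of_mem _ hwE⟩
      · exact ⟨w, hwE, Set.mem_insert _ _⟩
    set c' : ℕ → B := Function.update c n d with hc'
    have hagree : ∀ i < n, c' i = c i := fun i hi => by
      rw [hc', Function.update_of_ne (by omega)]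
    have hnew : c' n = d := by rw [hc', Function.update_self]
    have himg : c' '' Set.Iio (n + 1) = insert d E := by
      ext x
      constructor
      · rintro ⟨i, hi, rfl⟩
        rcases Nat.lt_succ_iff_lt_or_eq.1 hi with h | h
        · right; exact ⟨i, h, (hagree i h).symm⟩
        · left; rw [h, hnew]
      · rintro (rfl | ⟨i, hi, rfl⟩)
        · exact ⟨n, Nat.lt_succ_self n, hnew⟩
        · exact ⟨i, Nat.lt_succ_of_lt hi, hagree i hi⟩
    have hinj' : Set.InjOn c' (Set.Iio (n + 1)) := by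
      intro i hi j hj hij
      rcases Nat.lt_succ_iff_lt_or_eq.1 hi with h | h <;>
        rcases Nat.lt_succ_iff_lt_or_eq.1 hj with h' | h'
      · rw [hagree i h, hagree j h'] at hij
        exact hinj h h' hij
      · rw [hagree i h, h', hnew] at hij
        exact (hd ⟨i, h, hij⟩).elim
      · rw [hagree j h', h, hnew] at hij
        exact (hd ⟨j, h', hij.symm⟩).elim
      · omega
    have hsml : Sml k (insert d E) := by
      refine ⟨fun i => c' i, ?_⟩
      rw [← himg]
      rintro _ ⟨i, hi, rfl⟩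
      exact ⟨⟨i, lt_of_lt_of_le hi hn⟩, rfl⟩
    obtain ⟨X', Y', hXX', hYY', C'⟩ := extend (hS := hS) (k := k) (top := top)
      (E := insert d E) (X := X) (Y := Y1) hsml
      (fun g hg i => Set.mem_insert_of_mem _ (C.hX g hg i))
      (fun g hg i => by
        rcases hY1 g hg i with h | h
        · rw [h]; exact hwd
        · exact Set.mem_insert_of_mem _ h) hnd1
    refine ⟨c', X', Y', hinj', himg ▸ C', fun t ht s hs hlt hmem => ?_⟩
    have hcb : (fun i => c' (s.2 i)) = fun i => c (s.2 i) := by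
      funext i
      exact hagree _ (lt_of_lt_of_le (hlt i) (Nat.lt_succ_iff.1 ht))
    rw [hcb] at hmem
    have hmem' : kid hS (.all s.1.1.2) s.1.2 (fun i => c (s.2 i)) ∈ Y := by
      rw [← C.notX]
      · intro hx
        exact C'.disj (hXX' hx) hmem
      · exact kid_over hS _ _ _ _ fun i =>
          ⟨s.2 i, lt_of_lt_of_le (hlt i) (Nat.lt_succ_iff.1 ht), rfl⟩
    rcases Nat.lt_succ_iff_lt_or_eq.1 ht with h | h
    · obtain ⟨j, hj, hjm⟩ := hdone t h s hs hlt hmem'
      refine ⟨j, hj, ?_⟩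
      rw [hcb, hagree j (by omega)]
      exact hYY' (hYY1 hjm)
    · subst h
      have h1 := hw s hs hlt hmem'
      rw [← himg] at hwd
      obtain ⟨j, hj, hjw⟩ := hwd
      refine ⟨j, Nat.lt_succ_iff.1 hj, ?_⟩
      rw [hcb, hjw]
      exact hYY' h1

end Pool.Agent.T9h86.SymUp
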