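import Mathlib
import Pool.Agent.T9h86.SymUp.Henkin

/-!
# The limit of the complete sequents is an infinite model; the size of the proof
-/

set_option autoImplicit false

namespace Pool.Agent.T9h86.SymUp

open Equiv
open Pool.Agent.T9h47.SF Pool.Agent.T9h47.SG
open Classical

variable {R : Type} {ar : R → ℕ} {S : Finset (Σ m, Fml ar m)}

/-- truth assignments which are correct for the elements below `k`, with early witnesses -/
structure Good (S : Finset (Σ m, Fml ar m)) (φ : Fml ar 0) (T : ℕ → Option (Tsk S)) (k : ℕ)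
    (p : (m : ℕ) → Fml ar m → (Fin m → ℕ) → Prop) : Prop where
  rel : ∀ (m : ℕ) (r : R) (x : Fin (ar r) → Fin m) (b : Fin m → ℕ),
    (⟨m, .rel r x⟩ : Σ m, Fml ar m) ∈ S →
    (p m (.rel r x) b ↔ p (ar r) (.rel r id) (fun i => b (x i)))
  eq : ∀ (m : ℕ) (i j : Fin m) (b : Fin m → ℕ), (⟨m, .eq i j⟩ : Σ m, Fml ar m) ∈ S →
    (∀ i, b i < k) → (p m (.eq i j) b ↔ b i = b j)
  neg : ∀ (m : ℕ) (f : Fml ar m) (b : Fin m → ℕ), (⟨m, .neg f⟩ : Σ m, Fml ar m) ∈ S →
    (∀ i, b i < k) → (p m (.neg f) b ↔ ¬ p m f b)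
  and : ∀ (m : ℕ) (f f' : Fml ar m) (b : Fin m → ℕ), (⟨m, .and f f'⟩ : Σ m, Fml ar m) ∈ S →
    (∀ i, b i < k) → (p m (.and f f') b ↔ p m f b ∧ p m f' b)
  all : ∀ (m : ℕ) (f : Fml ar (m + 1)) (b : Fin m → ℕ), (⟨m, .all f⟩ : Σ m, Fml ar m) ∈ S →
    (∀ i, b i < k) → p m (.all f) b → ∀ j < k, p (m + 1) f (Fin.snoc (α := fun _ => ℕ) b j)
  wit : ∀ t < k, ∀ s, T t = some s → (∀ i, s.2 i < t) → ¬ p s.1.1.1 (.all s.1.1.2) s.2 →
    ∃ j ≤ t, ¬ p (s.1.1.1 + 1) s.1.1.2 (Fin.snoc (α := fun _ => ℕ) s.2 j)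
  top : p 0 φ Fin.elim0

theorem good_of_not {B : Type} [Fintype B] {k : ℕ} (hS : Closed S) {φ : Fml ar 0}
    (hφ : (⟨0, φ⟩ : Σ m, Fml ar m) ∈ S) (T : ℕ → Option (Tsk S)) (hB : k ≤ Fintype.card B)
    (hk : 1 ≤ k) (hnd : ¬ Ded hS k (kid hS φ hφ Fin.elim0 : Node S B) ∅ ∅) :
    ∃ p, Good S φ T k p := by
  obtain ⟨c, X, Y, hinj, C, hdone⟩ := stage T hB hk hnd k le_rfl
  set E : Set B := c '' Set.Iio k with hE
  have hov : ∀ {m : ℕ} (f : Fml ar m) (h : (⟨m, f⟩ : Σ m, Fml ar m) ∈ S) (b : Fin m → ℕ),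
      (∀ i, b i < k) → Ov E (kid hS f h fun i => c (b i)) := fun f h b hb =>
    kid_over hS _ _ _ _ fun i => ⟨b i, hb i, rfl⟩
  refine ⟨fun m f b => ∃ h : (⟨m, f⟩ : Σ m, Fml ar m) ∈ S, kid hS f h (fun i => c (b i)) ∈ X,
    ?_, ?_, ?_, ?_, ?_, ?_, ?_⟩
  · intro m r x b h
    constructor
    · rintro ⟨h, h'⟩
      exact ⟨hS.rel h, h'⟩
    · rintro ⟨_, h'⟩
      exact ⟨h, h'⟩
  · intro m i j b h hb
    constructor
    · rintro ⟨_, h'⟩
      by_contra hne
      refine C.disjL (g := kid hS (.eq i j) h fun i => c (b i)) ?_ h'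
      show (if c (b i) = c (b j) then Gt.conj ∅ else .disj ∅ : Gt (Vr ar B) (Node S B)) = .disj ∅
      rw [if_neg]
      intro he
      exact hne (hinj (hb i) (hb j) he)
    · intro he
      refine ⟨h, ?_⟩
      by_contra hX
      rw [C.notX (hov _ _ _ hb)] at hX
      obtain ⟨h', hh', -⟩ := C.conjR' (g := kid hS (.eq i j) h fun i => c (b i)) (T := ∅) (by
        show (if c (b i) = c (b j) then Gt.conj ∅ else .disj ∅ : Gt (Vr ar B) (Node S B)) = .conj ∅
        rw [if_pos (by rw [he])]) hX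
      exact absurd hh' (Finset.notMem_empty _)
  · intro m f b h hb
    constructor
    · rintro ⟨_, h'⟩ ⟨h1, h2⟩
      exact C.negL (g := kid hS (.neg f) h fun i => c (b i)) rfl h' h2
    · intro hn
      refine ⟨h, ?_⟩
      by_contra hX
      rw [C.notX (hov _ _ _ hb)] at hX
      have h3 : kid hS f (hS.neg h) (fun i => c (b i)) ∈ Y :=
        (C.notX (hov _ _ _ hb)).1 fun h2 => hn ⟨hS.neg h, h2⟩
      exact C.negR (g := kid hS (.neg f) h fun i => c (b i)) rfl hX h3
  · intro m f f' b h hb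
    constructor
    · rintro ⟨_, h'⟩
      refine ⟨⟨hS.and1 h, ?_⟩, ⟨hS.and2 h, ?_⟩⟩
      · by_contra hX
        rw [C.notX (hov _ _ _ hb)] at hX
        refine C.conjL (g := kid hS (.and f f') h fun i => c (b i)) rfl h' ?_ hX
        exact Finset.mem_insert_self _ _
      · by_contra hX
        rw [C.notX (hov _ _ _ hb)] at hX
        refine C.conjL (g := kid hS (.and f f') h fun i => c (b i)) rfl h' ?_ hX
        exact Finset.mem_insert_of_mem (Finset.mem_singleton_self _)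
    · rintro ⟨⟨h1, h2⟩, ⟨h3, h4⟩⟩
      refine ⟨h, ?_⟩
      by_contra hX
      rw [C.notX (hov _ _ _ hb)] at hX
      obtain ⟨a, ha, ha'⟩ := C.conjR' (g := kid hS (.and f f') h fun i => c (b i)) rfl hX
      rcases Finset.mem_insert.1 ha with rfl | ha
      · exact ha' h2
      · rw [Finset.mem_singleton.1 ha] at ha'
        exact ha' h4
  · rintro m f b h hb ⟨_, h'⟩ j hj
    refine ⟨hS.all h, ?_⟩
    have e : (fun i => c (Fin.snoc (α := fun _ => ℕ) b j i)) =
      Fin.snoc (α := fun _ => B) (fun i => c (b i)) (c j) := snoc_comp c b j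
    have hb' : ∀ i, Fin.snoc (α := fun _ => ℕ) b j i < k := by
      intro i
      refine Fin.lastCases ?_ (fun i => ?_) i
      · rw [Fin.snoc_last]; exact hj
      · rw [Fin.snoc_castSucc]; exact hb i
    by_contra hX
    rw [C.notX (hov _ _ _ hb')] at hX
    refine C.conjL (g := kid hS (.all f) h fun i => c (b i)) rfl h' ?_ hX
    rw [e]
    exact Finset.mem_image_of_mem _ (Finset.mem_univ _)
  · intro t ht s hs hlt hn
    have hX : kid hS (.all s.1.1.2) s.1.2 (fun i => c (s.2 i)) ∈ Y := by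
      rw [← C.notX (hov _ _ _ fun i => (hlt i).trans ht)]
      exact fun h => hn ⟨s.1.2, h⟩
    obtain ⟨j, hj, hjm⟩ := hdone t ht s hs hlt hX
    refine ⟨j, hj, ?_⟩
    rintro ⟨h1, h2⟩
    rw [snoc_comp] at h2
    exact C.disj h2 hjm
  · refine ⟨hφ, ?_⟩
    have : (fun i => c (Fin.elim0 i)) = (Fin.elim0 : Fin 0 → B) := by
      funext i; exact i.elim0
    rw [this]
    exact C.topX (kid_over hS _ _ _ _ fun i => i.elim0)

theorem exists_model (hS : Closed S) {φ : Fml ar 0} (hφ : (⟨0, φ⟩ : Σ m, Fml ar m) ∈ S)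
    (T : ℕ → Option (Tsk S)) (hT : ∀ s : Tsk S, ∃ t, T t = some s ∧ ∀ i, s.2 i < t)
    (h : ∀ k, 1 ≤ k → ∃ p, Good S φ T k p) :
    ∃ I : ∀ r, (Fin (ar r) → ℕ) → Prop, φ.Sat I Fin.elim0 := by
  have h' : ∀ k, ∃ p, Good S φ T (k + 1) p := fun k => h (k + 1) (by omega)
  choose p hp using h'
  let U : Ultrafilter ℕ := Filter.hyperfilter ℕ
  have hU : ∀ n : ℕ, ∀ᶠ k in (U : Filter ℕ), n < k + 1 := fun n =>
    Filter.Eventually.filter_mono Nat.hyperfilter_le_atTop
      (Filter.eventually_atTop.2 ⟨n, fun k hk => Nat.lt_succ_of_le hk⟩)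
  have hUb : ∀ {m : ℕ} (b : Fin m → ℕ), ∀ᶠ k in (U : Filter ℕ), ∀ i, b i < k + 1 := fun b =>
    Filter.eventually_all.2 fun i => hU (b i)
  refine ⟨fun r v => ∀ᶠ k in (U : Filter ℕ), p k (ar r) (.rel r id) v, ?_⟩
  have key : ∀ (m : ℕ) (f : Fml ar m), (⟨m, f⟩ : Σ m, Fml ar m) ∈ S → ∀ b : Fin m → ℕ,
      (f.Sat (fun r v => ∀ᶠ k in (U : Filter ℕ), p k (ar r) (.rel r id) v) b ↔
        ∀ᶠ k in (U : Filter ℕ), p k m f b) := by
    intro m f
    induction f with
    | @rel m r x =>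
      intro hf b
      show (∀ᶠ k in (U : Filter ℕ), p k (ar r) (.rel r id) (fun i => b (x i))) ↔ _
      exact Filter.eventually_congr (Filter.Eventually.of_forall fun k =>
        ((hp k).rel m r x b hf).symm)
    | @eq m i j =>
      intro hf b
      show b i = b j ↔ _
      rw [Filter.eventually_congr ((hUb b).mono fun k hk => (hp k).eq m i j b hf hk)]
      exact Filter.eventually_const.symm
    | @neg m f ih =>
      intro hf b
      show (¬ Fml.Sat _ f b) ↔ _
      rw [Filter.eventually_congr ((hUb b).mono fun k hk => (hp k).neg m f b hf hk),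
        Ultrafilter.eventually_not, ih (hS.neg hf) b]
    | @and m f f' ih ih' =>
      intro hf b
      show (Fml.Sat _ f b ∧ Fml.Sat _ f' b) ↔ _
      rw [Filter.eventually_congr ((hUb b).mono fun k hk => (hp k).and m f f' b hf hk),
        Filter.eventually_and, ih (hS.and1 hf) b, ih' (hS.and2 hf) b]
    | @all m f ih =>
      intro hf b
      show (∀ j, Fml.Sat _ f (Fin.snoc (α := fun _ => ℕ) b j)) ↔ _
      constructor
      · intro hall
        by_contra hcon
        rw [← Ultrafilter.eventually_not] at hcon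
        obtain ⟨t, ht, hlt⟩ := hT ⟨⟨⟨m, f⟩, hf⟩, b⟩
        have h1 : ∀ᶠ k in (U : Filter ℕ), ∀ j : Fin (t + 1),
            p k (m + 1) f (Fin.snoc (α := fun _ => ℕ) b j) :=
          Filter.eventually_all.2 fun j => (ih (hS.all hf) _).1 (hall j)
        obtain ⟨k, hk1, hk2, hk3⟩ := ((hcon.and h1).and (hU t)).exists.imp
          fun k hk => (⟨hk.1.1, hk.1.2, hk.2⟩ : _ ∧ _ ∧ _)
        obtain ⟨j, hj, hjn⟩ := (hp k).wit t hk3 _ ht hlt hk1
        exact hjn (hk2 ⟨j, Nat.lt_succ_of_le hj⟩)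
      · intro hev j
        rw [ih (hS.all hf)]
        filter_upwards [hev, hUb b, hU j] with k h1 h2 h3
        exact (hp k).all m f b hf h2 h1 j h3
  exact (key 0 φ hφ _).2 (Filter.Eventually.of_forall fun k => (hp k).top)

/-- a fair enumeration of the tasks -/
theorem exists_enum (S : Finset (Σ m, Fml ar m)) :
    ∃ T : ℕ → Option (Tsk S), ∀ s : Tsk S, ∃ t, T t = some s ∧ ∀ i, s.2 i < t := by
  have hf : Finite {p : Σ m, Fml ar (m + 1) // (⟨p.1, .all p.2⟩ : Σ m, Fml ar m) ∈ S} := by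
    refine Finite.of_injective (β := {p // p ∈ S}) (fun p => ⟨⟨p.1.1, .all p.1.2⟩, p.2⟩) ?_
    rintro ⟨⟨m, f⟩, hf⟩ ⟨⟨m', f'⟩, hf'⟩ h
    simp only [Subtype.mk.injEq] at h
    cases h
    rfl
  have hc : Countable (Tsk S) := inferInstance
  obtain ⟨enc⟩ := nonempty_encodable (Tsk S)
  refine ⟨fun n => Encodable.decode (Nat.unpair n).1, fun s => ?_⟩
  refine ⟨Nat.pair (Encodable.encode s) (Finset.univ.sup s.2 + 1), ?_, fun i => ?_⟩
  · show Encodable.decode (Nat.unpair (Nat.pair (Encodable.encode s) _)).1 = some s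
    rw [Nat.unpair_pair]
    exact Encodable.encodek s
  · have h1 : s.2 i ≤ Finset.univ.sup s.2 := Finset.le_sup (f := s.2) (Finset.mem_univ i)
    have h2 := Nat.right_le_pair (Encodable.encode s) (Finset.univ.sup s.2 + 1)
    omega

/-- if `φ` has no infinite model then the empty sequent is derivable with few elements -/
theorem exists_ded (hS : Closed S) {φ : Fml ar 0} (hφ : (⟨0, φ⟩ : Σ m, Fml ar m) ∈ S)
    (hno : ∀ (A : Type) [Infinite A] (I : ∀ r, (Fin (ar r) → A) → Prop), ¬ φ.Sat I Fin.elim0) :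
    ∃ k, 1 ≤ k ∧ ∀ (B : Type) [Fintype B], k ≤ Fintype.card B →
      Ded hS k (kid hS φ hφ Fin.elim0 : Node S B) ∅ ∅ := by
  by_contra hcon
  push Not at hcon
  obtain ⟨T, hT⟩ := exists_enum S
  obtain ⟨I, hI⟩ := exists_model hS hφ T hT fun k hk => by
    obtain ⟨B, _, hB, hn⟩ := hcon k hk
    exact good_of_not hS hφ T hB hk hn
  exact hno ℕ I hI

theorem card_node (S : Finset (Σ m, Fml ar m)) {B : Type} [Fintype B] (hB : 1 ≤ Fintype.card B) :
    Fintype.card (Node S B) ≤ S.card * Fintype.card B ^ (S.sup fun p => p.1) := by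
  rw [Fintype.card_sigma]
  calc ∑ s : {p // p ∈ S}, Fintype.card (Fin s.1.1 → B)
      ≤ ∑ _s : {p // p ∈ S}, Fintype.card B ^ (S.sup fun p => p.1) := by
        refine Finset.sum_le_sum fun s _ => ?_
        rw [Fintype.card_fun, Fintype.card_fin]
        exact Nat.pow_le_pow_right hB (Finset.le_sup (f := fun p : Σ m, Fml ar m => p.1) s.2)
    _ = S.card * Fintype.card B ^ (S.sup fun p => p.1) := by
        simp

/-- **Sentences without infinite models have symmetric refutations of polynomial size.** -/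
theorem sym_upper {R : Type} {ar : R → ℕ} (φ : Fml ar 0)
    (hno : ∀ (A : Type) [Infinite A] (I : ∀ r, (Fin (ar r) → A) → Prop), ¬ φ.Sat I Fin.elim0) :
    ∃ C : ℕ, ∀ (B : Type) [Fintype B] [DecidableEq B], C ≤ Fintype.card B →
      ∃ P : Pf (Vr ar B), RefutesFml P φ ∧ SymOn P Finset.univ ∧
        P.size ≤ Fintype.card B ^ C := by
  obtain ⟨S, hS, hφ⟩ := exists_closed φ
  obtain ⟨k, hk, hded⟩ := exists_ded hS hφ hno
  set M := S.sup fun p => p.1 with hM
  set N := 2 ^ Fintype.card (Node S (Fin k)) * 2 ^ Fintype.card (Node S (Fin k)) with hN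
  refine ⟨S.card + N + M + k + 1, fun B _ _ hB => ?_⟩
  have hB1 : 1 ≤ Fintype.card B := by omega
  have htop : ∀ σ : Perm B, Node.map σ (kid hS φ hφ Fin.elim0 : Node S B) =
      kid hS φ hφ Fin.elim0 := by
    intro σ
    rw [kid_map]
    congr 1
    funext i
    exact i.elim0
  refine ⟨prf hS k (kid hS φ hφ Fin.elim0), ⟨fun l => ?_, ?_⟩, ?_, ?_⟩
  · rcases prf_rule l with h | h
    · exact Or.inl ⟨_, h, prf_rep hS k _ φ hφ _⟩
    · exact Or.inr h
  · obtain ⟨l, hl, h1, h2⟩ := hded B (by omega)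
    refine ⟨⟨l, hl⟩, ?_, ?_⟩
    · exact Finset.eq_empty_of_forall_notMem fun a ha => h1 a ha
    · exact Finset.eq_empty_of_forall_notMem fun a ha => h2 a ha
  · intro σ _
    exact prf_sym htop σ
  · have e1 : (prf hS k (kid hS φ hφ Fin.elim0 : Node S B)).size ≤
        Fintype.card (Node S B) + Fintype.card (Sq S B k) := by
      show @Fintype.card (Node S B) _ + @Fintype.card {l : Sq S B k // Drv hS _ l} _ ≤ _
      exact Nat.add_le_add (le_of_eq (by congr)) (Fintype.card_subtype_le _)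
    have e2 : Fintype.card (Sq S B k) = Fintype.card B ^ k * N := by
      rw [Fintype.card_prod, Fintype.card_prod, Fintype.card_fun, Fintype.card_fin,
        Fintype.card_finset, hN]
    have e3 := card_node S hB1
    set b := Fintype.card B with hb
    calc (prf hS k (kid hS φ hφ Fin.elim0 : Node S B)).size
        ≤ S.card * b ^ M + b ^ k * N := by
          rw [e2] at e1; exact e1.trans (Nat.add_le_add_right e3 _)
      _ ≤ S.card * b ^ (M + k) + b ^ (M + k) * N := by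
          refine Nat.add_le_add (Nat.mul_le_mul_left _ (Nat.pow_le_pow_right hB1 (by omega)))
            (Nat.mul_le_mul_right _ (Nat.pow_le_pow_right hB1 (by omega)))
      _ = (S.card + N) * b ^ (M + k) := by ring
      _ ≤ b * b ^ (M + k) := Nat.mul_le_mul_right _ (by omega)
      _ = b ^ (M + k + 1) := by rw [pow_succ]; ring
      _ ≤ b ^ (S.card + N + M + k + 1) := Nat.pow_le_pow_right hB1 (by omega)

end Pool.Agent.T9h86.SymUp
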